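import Pool.Agent.Helper82.BR.St3

set_option autoImplicit false

namespace Pool.Agent.Helper1.BR

open Pool.Agent.Helper82.BR

theorem seven (D : Finset ℂ) (h : D.card ≤ 7) (l : List ℂ) (hn : l.Nodup)
    (hm : ∀ x ∈ l, x ∈ D) : l.length ≤ 7 := by
  classical
  have : l.toFinset ⊆ D := by
    intro x hx
    exact hm x (List.mem_toFinset.1 hx)
  have h2 := Finset.card_le_card this
  rw [List.toFinset_card_of_nodup hn] at h2
  omega

theorem chain (D : Finset ℂ) (w x y xi yi : ℂ) (hw : w ^ 2 = w - 1) (hD : D.card ≤ 7)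
    (hx : x * xi = 1) (hy : y * yi = 1)
    (m1 : x * x ∈ D) (m2 : x * x * w ∈ D) (m3 : x * x * w ^ 2 ∈ D) (m4 : -(x * x) ∈ D)
    (m5 : -(x * x * w) ∈ D) (m6 : x * y ∈ D) (m7 : x * y * w ∈ D) (m8 : x * y * w ^ 2 ∈ D)
    (h1 : y ≠ x) (h2 : y ≠ x * w) (h3 : y ≠ x * w ^ 2) (h4 : y ≠ -x) (h5 : y ≠ -(x * w))
    (h6 : y ≠ -(x * w ^ 2)) : False := by
  have hl := seven D hD [x * x, x * x * w, x * x * w ^ 2, -(x * x), -(x * x * w), x * y,
    x * y * w, x * y * w ^ 2] (by
      simp only [List.nodup_cons, List.mem_cons, List.not_mem_nil, not_or, or_false,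
        not_false_eq_true, List.nodup_nil, and_true]
      refine ⟨⟨?_, ?_, ?_, ?_, ?_, ?_, ?_⟩, ⟨?_, ?_, ?_, ?_, ?_, ?_⟩, ⟨?_, ?_, ?_, ?_, ?_⟩,
        ⟨?_, ?_, ?_, ?_⟩, ⟨?_, ?_, ?_⟩, ⟨?_, ?_⟩, ?_⟩ <;> intro e <;> grind) (by
      intro z hz
      simp only [List.mem_cons, List.not_mem_nil, or_false] at hz
      rcases hz with rfl | rfl | rfl | rfl | rfl | rfl | rfl | rfl <;> assumption)
  simp at hl

/-- the normalised form -/
theorem core (D : Finset ℂ) (w Q R Qi Ri : ℂ) (hw : w ^ 2 = w - 1) (hD : D.card ≤ 7)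
    (hQ : Q * Qi = 1) (hR : R * Ri = 1)
    (m1 : (1 : ℂ) ∈ D) (m2 : w ∈ D) (m3 : w ^ 2 ∈ D) (m4 : Q ∈ D) (m5 : Q * w ∈ D)
    (m6 : R ∈ D) (m7 : R * w ∈ D) (m8 : Q * Q ∈ D) (m9 : R * R ∈ D) (m10 : Q * R ∈ D)
    (a1 : Q ≠ 1) (a2 : Q ≠ w) (a3 : Q ≠ -1) (a4 : Q ≠ -w)
    (b1 : R ≠ 1) (b2 : R ≠ w) (b3 : R ≠ -1) (b4 : R ≠ -w) (c1 : Q ≠ R) (c2 : Q ≠ -R) :
    (Q * Q = w ∧ R = Q * w) ∨ (R * R = w ∧ Q = R * w) ∨ (Q * Q * w = 1 ∧ R = Q * w) ∨
    (R * R * w = 1 ∧ Q = R * w) ∨ (Q * Q * Q = w ∧ R = Q * Q) ∨ (R * R * R = w ∧ Q = R * R) := by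
  -- chains
  have k1 : Q ≠ w ^ 2 := by
    intro e
    exact chain D w 1 R 1 Ri hw hD (by norm_num) hR (by simpa using m1) (by simpa using m2)
      (by simpa using m3) (by convert m5 using 1; rw [e]; grind)
      (by convert m8 using 1; rw [e]; linear_combination (-(w * (w + 1))) * hw) (by simpa using m6) (by simpa using m7)
      (by convert m10 using 1; rw [e]; grind) b1 (by simpa using b2)
      (by intro h; apply c1; grind) b3 (by simpa using b4) (by intro h; apply c2; grind)
  have k2 : R ≠ w ^ 2 := by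
    intro e
    exact chain D w 1 Q 1 Qi hw hD (by norm_num) hQ (by simpa using m1) (by simpa using m2)
      (by simpa using m3) (by convert m7 using 1; rw [e]; grind)
      (by convert m9 using 1; rw [e]; linear_combination (-(w * (w + 1))) * hw) (by simpa using m4) (by simpa using m5)
      (by convert m10 using 1; rw [e]; grind) a1 (by simpa using a2)
      (by intro h; apply c1; grind) a3 (by simpa using a4) (by intro h; apply c2; grind)
  have k3 : Q ≠ -w ^ 2 := by
    intro e
    exact chain D w (-w ^ 2) R w Ri hw hD (by grind) hR (by convert m8 using 1; rw [e])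
      (by convert m4 using 1; rw [e]; grind) (by convert m1 using 1; grind)
      (by convert m2 using 1; grind) (by convert m3 using 1; grind)
      (by convert m10 using 1; rw [e]) (by convert m6 using 1; grind)
      (by convert m7 using 1; grind) (by grind) (by grind) (by grind) (by grind) (by grind)
      (by grind)
  have k4 : R ≠ -w ^ 2 := by
    intro e
    exact chain D w (-w ^ 2) Q w Qi hw hD (by grind) hQ (by convert m9 using 1; rw [e])
      (by convert m6 using 1; rw [e]; grind) (by convert m1 using 1; grind)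
      (by convert m2 using 1; grind) (by convert m3 using 1; grind)
      (by convert m10 using 1; rw [e]; ring) (by convert m4 using 1; grind)
      (by convert m5 using 1; grind) (by grind) (by grind) (by grind) (by grind) (by grind)
      (by grind)
  have q1 : Q * Q ≠ 1 := by
    intro e
    have : (Q - 1) * (Q + 1) = 0 := by linear_combination e
    rcases mul_eq_zero.1 this with h | h <;> grind
  have q2 : Q * Q ≠ w ^ 2 := by
    intro e
    have : (Q - w) * (Q + w) = 0 := by linear_combination e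
    rcases mul_eq_zero.1 this with h | h <;> grind
  have r1 : R * R ≠ 1 := by
    intro e
    have : (R - 1) * (R + 1) = 0 := by linear_combination e
    rcases mul_eq_zero.1 this with h | h <;> grind
  have r2 : R * R ≠ w ^ 2 := by
    intro e
    have : (R - w) * (R + w) = 0 := by linear_combination e
    rcases mul_eq_zero.1 this with h | h <;> grind
  have s1 : Q * Q ≠ R * R := by
    intro e
    have : (Q - R) * (Q + R) = 0 := by linear_combination e
    rcases mul_eq_zero.1 this with h | h <;> grind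
  have q3 : Q * Q * Q ≠ 1 := by
    intro e
    have : (Q - 1) * ((Q - w ^ 2) * (Q + w)) = 0 := by grind
    rcases mul_eq_zero.1 this with h | h
    · grind
    rcases mul_eq_zero.1 h with h | h <;> grind
  have q4 : Q * Q * Q ≠ -1 := by
    intro e
    have : (Q + 1) * ((Q - w) * (Q + w ^ 2)) = 0 := by grind
    rcases mul_eq_zero.1 this with h | h
    · grind
    rcases mul_eq_zero.1 h with h | h <;> grind
  by_cases e1 : R = Q * w
  · by_cases f1 : Q * Q = w
    · exact Or.inl ⟨f1, e1⟩
    by_cases f2 : Q * Q * w = 1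
    · exact Or.inr (Or.inr (Or.inl ⟨f2, e1⟩))
    exfalso
    have hl := seven D hD [1, w, w ^ 2, Q, Q * w, Q * w ^ 2, Q * Q, Q * Q * w] (by
      simp only [List.nodup_cons, List.mem_cons, List.not_mem_nil, not_or, or_false,
        not_false_eq_true, List.nodup_nil, and_true]
      refine ⟨⟨?_, ?_, ?_, ?_, ?_, ?_, ?_⟩, ⟨?_, ?_, ?_, ?_, ?_, ?_⟩, ⟨?_, ?_, ?_, ?_, ?_⟩,
        ⟨?_, ?_, ?_, ?_⟩, ⟨?_, ?_, ?_⟩, ⟨?_, ?_⟩, ?_⟩ <;> intro e <;> grind) (by
      intro z hz
      simp only [List.mem_cons, List.not_mem_nil, or_false] at hz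
      rcases hz with rfl | rfl | rfl | rfl | rfl | rfl | rfl | rfl
      · exact m1
      · exact m2
      · exact m3
      · exact m4
      · exact m5
      · convert m7 using 1; rw [e1]; ring
      · exact m8
      · convert m10 using 1; rw [e1]; ring)
    simp at hl
  by_cases e2 : Q = R * w
  · by_cases f1 : R * R = w
    · exact Or.inr (Or.inl ⟨f1, e2⟩)
    by_cases f2 : R * R * w = 1
    · exact Or.inr (Or.inr (Or.inr (Or.inl ⟨f2, e2⟩)))
    exfalso
    have hl := seven D hD [1, w, w ^ 2, R, R * w, R * w ^ 2, R * R, R * R * w] (by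
      simp only [List.nodup_cons, List.mem_cons, List.not_mem_nil, not_or, or_false,
        not_false_eq_true, List.nodup_nil, and_true]
      refine ⟨⟨?_, ?_, ?_, ?_, ?_, ?_, ?_⟩, ⟨?_, ?_, ?_, ?_, ?_, ?_⟩, ⟨?_, ?_, ?_, ?_, ?_⟩,
        ⟨?_, ?_, ?_, ?_⟩, ⟨?_, ?_, ?_⟩, ⟨?_, ?_⟩, ?_⟩ <;> intro e <;> grind) (by
      intro z hz
      simp only [List.mem_cons, List.not_mem_nil, or_false] at hz
      rcases hz with rfl | rfl | rfl | rfl | rfl | rfl | rfl | rfl
      · exact m1
      · exact m2
      · exact m3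
      · exact m6
      · exact m7
      · convert m5 using 1; rw [e2]; ring
      · exact m9
      · convert m10 using 1; rw [e2]; ring)
    simp at hl
  -- the seven elements
  have n : ∀ u ∈ D, u = 1 ∨ u = w ∨ u = w ^ 2 ∨ u = Q ∨ u = Q * w ∨ u = R ∨ u = R * w := by
    intro u hu
    by_contra hc
    push_neg at hc
    obtain ⟨u1, u2, u3, u4, u5, u6, u7⟩ := hc
    have hl := seven D hD [u, 1, w, w ^ 2, Q, Q * w, R, R * w] (by
      simp only [List.nodup_cons, List.mem_cons, List.not_mem_nil, not_or, or_false,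
        not_false_eq_true, List.nodup_nil, and_true]
      refine ⟨⟨u1, u2, u3, u4, u5, u6, u7⟩, ⟨?_, ?_, ?_, ?_, ?_, ?_⟩, ⟨?_, ?_, ?_, ?_, ?_⟩,
        ⟨?_, ?_, ?_, ?_⟩, ⟨?_, ?_, ?_⟩, ⟨?_, ?_⟩, ?_⟩ <;> intro e <;> grind) (by
      intro z hz
      simp only [List.mem_cons, List.not_mem_nil, or_false] at hz
      rcases hz with rfl | rfl | rfl | rfl | rfl | rfl | rfl | rfl <;> assumption)
    simp at hl
  have t1 : Q * Q = w ∨ Q * Q = R ∨ Q * Q = R * w := by
    rcases n _ m8 with h | h | h | h | h | h | h <;> grind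
  have t2 : R * R = w ∨ R * R = Q ∨ R * R = Q * w := by
    rcases n _ m9 with h | h | h | h | h | h | h <;> grind
  have t3 : Q * R = 1 ∨ Q * R = w ∨ Q * R = w ^ 2 := by
    rcases n _ m10 with h | h | h | h | h | h | h <;> grind
  rcases t1 with h1 | h1 | h1 <;> rcases t2 with h2 | h2 | h2
  · exact absurd (h1.trans h2.symm) s1
  · exfalso; rcases t3 with h3 | h3 | h3 <;> grind
  · exfalso; rcases t3 with h3 | h3 | h3 <;> grind
  · exfalso; rcases t3 with h3 | h3 | h3 <;> grind
  · exfalso; apply q3; grind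
  · right; right; right; right; left
    refine ⟨?_, h1.symm⟩
    linear_combination Qi * h2 + Qi * (Q * Q + R) * h1 - (Q * Q * Q - w) * hQ
  · exfalso; rcases t3 with h3 | h3 | h3 <;> grind
  · right; right; right; right; right
    refine ⟨?_, h2.symm⟩
    grind
  · exfalso; apply q4; grind

/-- GP. -/
theorem hGP : StGP := by
  intro D w p q r hw hD hp hq hr hprod hneg n1 n2 n3 n4 n5
  classical
  have mp : p ∈ ({p, p * w, q, r} : Finset ℂ) := by simp
  have mpw : p * w ∈ ({p, p * w, q, r} : Finset ℂ) := by simp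
  have mq : q ∈ ({p, p * w, q, r} : Finset ℂ) := by simp
  have mr : r ∈ ({p, p * w, q, r} : Finset ℂ) := by simp
  obtain ⟨Q, hQ⟩ : ∃ Q, q = p * Q := ⟨q / p, by field_simp⟩
  obtain ⟨R, hR⟩ : ∃ R, r = p * R := ⟨r / p, by field_simp⟩
  subst hQ
  subst hR
  have hQ0 : Q ≠ 0 := right_ne_zero_of_mul hq
  have hR0 : R ≠ 0 := right_ne_zero_of_mul hr
  have key : ∀ u : ℂ, p * p * u ∈ D → u ∈ D.image (fun z => z / (p * p)) := by
    intro u hu
    refine Finset.mem_image.2 ⟨_, hu, ?_⟩
    field_simp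
  have hc : (D.image (fun z => z / (p * p))).card ≤ 7 := Finset.card_image_le.trans hD
  have hp1 := hneg _ mp
  have hp2 := hneg _ mpw
  have hp3 := hneg _ mq
  simp only [Finset.mem_insert, Finset.mem_singleton, not_or] at hp1 hp2 hp3
  obtain ⟨_, _, x1, x2⟩ := hp1
  obtain ⟨_, _, x3, x4⟩ := hp2
  obtain ⟨_, _, _, x5⟩ := hp3
  have res := core (D.image (fun z => z / (p * p))) w Q R Q⁻¹ R⁻¹ hw hc
    (mul_inv_cancel₀ hQ0) (mul_inv_cancel₀ hR0)
    (key _ (by convert hprod _ mp _ mp using 1; ring))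
    (key _ (by convert hprod _ mp _ mpw using 1; ring))
    (key _ (by convert hprod _ mpw _ mpw using 1; ring))
    (key _ (by convert hprod _ mp _ mq using 1; ring))
    (key _ (by convert hprod _ mpw _ mq using 1; ring))
    (key _ (by convert hprod _ mp _ mr using 1; ring))
    (key _ (by convert hprod _ mpw _ mr using 1; ring))
    (key _ (by convert hprod _ mq _ mq using 1; ring))
    (key _ (by convert hprod _ mr _ mr using 1; ring))
    (key _ (by convert hprod _ mq _ mr using 1; ring))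
    (by rintro rfl; exact n1 (by ring)) (by rintro rfl; exact n2 rfl)
    (by rintro rfl; exact x1 (by ring)) (by rintro rfl; exact x3 (by ring))
    (by rintro rfl; exact n3 (by ring)) (by rintro rfl; exact n4 rfl)
    (by rintro rfl; exact x2 (by ring)) (by rintro rfl; exact x4 (by ring))
    (by rintro rfl; exact n5 rfl) (by rintro rfl; exact x5 (by ring))
  rcases res with ⟨h1, h2⟩ | ⟨h1, h2⟩ | ⟨h1, h2⟩ | ⟨h1, h2⟩ | ⟨h1, h2⟩ | ⟨h1, h2⟩
  · refine ⟨p, Q, mp, mq, ?_, ?_, Or.inl (by rw [sq]; exact h1)⟩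
    · rw [sq, h1]; exact mpw
    · have : p * Q ^ 3 = p * R := by rw [h2]; linear_combination p * Q * h1
      rw [this]; exact mr
  · refine ⟨p, R, mp, mr, ?_, ?_, Or.inl (by rw [sq]; exact h1)⟩
    · rw [sq, h1]; exact mpw
    · have : p * R ^ 3 = p * Q := by rw [h2]; linear_combination p * R * h1
      rw [this]; exact mq
  · have hi : Q⁻¹ = R := by
      rw [h2]; exact inv_eq_of_mul_eq_one_right (by linear_combination h1)
    have hQR : Q * R = 1 := by rw [h2]; linear_combination h1
    have hR2 : R * R = w := by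
      have : R * R = Q * Q * w * w := by rw [h2]; ring
      rw [this, h1, one_mul]
    refine ⟨p * Q, R, mq, ?_, ?_, ?_, Or.inl (by rw [sq]; exact hR2)⟩
    · have : p * Q * R = p := by linear_combination p * hQR
      rw [this]; exact mp
    · have : p * Q * R ^ 2 = p * R := by linear_combination p * R * hQR
      rw [this]; exact mr
    · have : p * Q * R ^ 3 = p * w := by linear_combination p * R ^ 2 * hQR + p * hR2
      rw [this]; exact mpw
  · have hQR : R * Q = 1 := by rw [h2]; linear_combination h1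
    have hQ2 : Q * Q = w := by
      have : Q * Q = R * R * w * w := by rw [h2]; ring
      rw [this, h1, one_mul]
    refine ⟨p * R, Q, mr, ?_, ?_, ?_, Or.inl (by rw [sq]; exact hQ2)⟩
    · have : p * R * Q = p := by linear_combination p * hQR
      rw [this]; exact mp
    · have : p * R * Q ^ 2 = p * Q := by linear_combination p * Q * hQR
      rw [this]; exact mq
    · have : p * R * Q ^ 3 = p * w := by linear_combination p * Q ^ 2 * hQR + p * hQ2
      rw [this]; exact mpw
  · refine ⟨p, Q, mp, mq, ?_, ?_, Or.inr (by rw [← h1]; ring)⟩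
    · rw [sq, ← h2]; exact mr
    · have : p * Q ^ 3 = p * w := by linear_combination p * h1
      rw [this]; exact mpw
  · refine ⟨p, R, mp, mr, ?_, ?_, Or.inr (by rw [← h1]; ring)⟩
    · rw [sq, ← h2]; exact mq
    · have : p * R ^ 3 = p * w := by linear_combination p * h1
      rw [this]; exact mpw

end Pool.Agent.Helper1.BR
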