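import Pool.Agent.Helper82.BR.St2

/-!
# Project BR, module KEL: Kelly's eight points
-/

set_option autoImplicit false

namespace Pool.Agent.Helper1.BR

open Pool.Agent.Helper82.BR

private def cx : Fin 8 → ℤ × ℤ :=
  ![(1, 0), (-1, 0), (-1, 0), (1, 0), (1, 1), (0, 0), (-1, -1), (0, 0)]

private def cy : Fin 8 → ℤ × ℤ :=
  ![(1, 0), (1, 0), (-1, 0), (-1, 0), (0, 0), (1, 1), (0, 0), (-1, -1)]

/-- squared distances in `ℤ[√3]` -/
private def sd (k i : Fin 8) : ℤ × ℤ :=
  (((cx k).1 - (cx i).1) ^ 2 + 3 * ((cx k).2 - (cx i).2) ^ 2 + ((cy k).1 - (cy i).1) ^ 2 +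
    3 * ((cy k).2 - (cy i).2) ^ 2,
    2 * ((cx k).1 - (cx i).1) * ((cx k).2 - (cx i).2) + 2 * ((cy k).1 - (cy i).1) * ((cy k).2 - (cy i).2))

private noncomputable def pt (k : Fin 8) : ℂ :=
  ⟨((cx k).1 : ℝ) + (cx k).2 * √3, ((cy k).1 : ℝ) + (cy k).2 * √3⟩

private theorem nsq (k i : Fin 8) :
    Complex.normSq (pt k - pt i) = ((sd k i).1 : ℝ) + (sd k i).2 * √3 := by
  have hr : √3 * √3 = 3 := Real.mul_self_sqrt (by norm_num)
  rw [Complex.normSq_apply, Complex.sub_re, Complex.sub_im]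
  simp only [pt, sd]
  push_cast
  linear_combination ((((cx k).2 : ℝ) - (cx i).2) ^ 2 + (((cy k).2 : ℝ) - (cy i).2) ^ 2) * hr

private theorem irr (p q : ℤ) (h : (p : ℝ) + q * √3 = 0) : p = 0 ∧ q = 0 := by
  have h3 : Irrational (√3) := by
    have := Nat.Prime.irrational_sqrt (p := 3) (by norm_num)
    exact_mod_cast this
  have hq : q = 0 := by
    by_contra hq
    have hq' : (q : ℝ) ≠ 0 := by exact_mod_cast hq
    apply h3
    refine ⟨-(p : ℚ) / q, ?_⟩
    push_cast
    rw [div_eq_iff hq']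
    linarith
  refine ⟨?_, hq⟩
  rw [hq] at h
  simpa using h

private theorem inj_dec : ∀ i j : Fin 8, cx i = cx j → cy i = cy j → i = j := by decide

private theorem pt_inj : Function.Injective pt := by
  intro i j h
  have h1 := congrArg Complex.re h
  have h2 := congrArg Complex.im h
  simp only [pt] at h1 h2
  have h3 := irr ((cx i).1 - (cx j).1) ((cx i).2 - (cx j).2) (by push_cast; linarith)
  have h4 := irr ((cy i).1 - (cy j).1) ((cy i).2 - (cy j).2) (by push_cast; linarith)
  apply inj_dec i j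
  · exact Prod.ext (by linarith [h3.1]) (by linarith [h3.2])
  · exact Prod.ext (by linarith [h4.1]) (by linarith [h4.2])

private theorem rich_dec : ∀ i j : Fin 8, i ≠ j →
    ∃ k l : Fin 8, k ≠ l ∧ sd k i = sd k j ∧ sd l i = sd l j := by
  decide +kernel

private theorem dist_of (k i j : Fin 8) (h : sd k i = sd k j) :
    dist (pt k) (pt i) = dist (pt k) (pt j) := by
  rw [Complex.dist_eq, Complex.dist_eq]
  have h1 : ‖pt k - pt i‖ ^ 2 = ‖pt k - pt j‖ ^ 2 := by
    rw [Complex.sq_norm, Complex.sq_norm, nsq, nsq, h]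
  exact (pow_left_inj₀ (norm_nonneg _) (norm_nonneg _) (by norm_num)).1 h1

/-- MODULE KEL. -/
theorem hKEL : StKEL := by
  classical
  refine ⟨Finset.univ.image pt, ?_, ?_⟩
  · rw [Finset.card_image_of_injective _ pt_inj]
    simp
  · intro p hp q hq hpq
    obtain ⟨i, -, rfl⟩ := Finset.mem_image.1 hp
    obtain ⟨j, -, rfl⟩ := Finset.mem_image.1 hq
    have hij : i ≠ j := fun h => hpq (by rw [h])
    obtain ⟨k, l, hkl, hk, hl⟩ := rich_dec i j hij
    have h1 : ({pt k, pt l} : Finset ℂ) ⊆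
        (Finset.univ.image pt).filter (fun s => dist s (pt i) = dist s (pt j)) := by
      intro u hu
      rw [Finset.mem_filter]
      simp only [Finset.mem_insert, Finset.mem_singleton] at hu
      rcases hu with rfl | rfl
      · exact ⟨Finset.mem_image_of_mem _ (Finset.mem_univ _), dist_of k i j hk⟩
      · exact ⟨Finset.mem_image_of_mem _ (Finset.mem_univ _), dist_of l i j hl⟩
    have h2 := Finset.card_le_card h1
    rw [Finset.card_pair (fun h => hkl (pt_inj h))] at h2
    exact h2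

end Pool.Agent.Helper1.BR
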