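import Pool.Agent.Helper82.BR.St

/-!
# Project BR, module NC: no three collinear points
-/

set_option autoImplicit false

namespace Pool.Agent.Helper1.BR

open scoped ComplexConjugate
open Pool.Agent.Helper82.BR

/-- MODULE NC. -/
theorem hNC (hLIN : StLIN) (hSIM : StSIM) : StNC := by
  classical
  intro S hR h2 h7 x hx y hy z hz hxy hxz hyz him
  have ha : conj (y - z) ≠ 0 := by
    intro h
    exact hyz (sub_eq_zero.1 ((map_eq_zero _).1 h))
  obtain ⟨a, had⟩ : ∃ a : ℂ, a = conj (y - z) := ⟨_, rfl⟩
  rw [← had] at ha him
  have hinj : Function.Injective (fun t : ℂ => a * (t - z)) := by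
    intro s t hst
    have h1 : s - z = t - z := mul_left_cancel₀ ha hst
    exact sub_left_inj.1 h1
  have hT := hSIM S a z ha hR
  have hc : (S.image (fun t : ℂ => a * (t - z))).card = S.card :=
    Finset.card_image_of_injective S hinj
  have hl := hLIN _ hT (by rw [hc]; exact h2)
  rw [hc] at hl
  have h3 : 3 ≤ ((S.image (fun t : ℂ => a * (t - z))).filter (fun s => s.im = 0)).card := by
    have h4 : ({a * (x - z), a * (y - z), a * (z - z)} : Finset ℂ) ⊆
        (S.image (fun t : ℂ => a * (t - z))).filter (fun s => s.im = 0) := by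
      intro u hu
      rw [Finset.mem_filter]
      simp only [Finset.mem_insert, Finset.mem_singleton] at hu
      rcases hu with rfl | rfl | rfl
      · refine ⟨Finset.mem_image_of_mem _ hx, ?_⟩
        rw [mul_comm]
        exact him
      · refine ⟨Finset.mem_image_of_mem _ hy, ?_⟩
        rw [had, mul_comm, Complex.mul_conj, Complex.ofReal_im]
      · refine ⟨Finset.mem_image_of_mem _ hz, ?_⟩
        simp
    have h5 : ({a * (x - z), a * (y - z), a * (z - z)} : Finset ℂ).card = 3 := by
      rw [Finset.card_eq_three]
      exact ⟨_, _, _, fun h => hxy (hinj h), fun h => hxz (hinj h), fun h => hyz (hinj h), rfl⟩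
    rw [← h5]
    exact Finset.card_le_card h4
  omega

end Pool.Agent.Helper1.BR
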